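import Pool.Agent.Helper8.Hyb.Top
import Pool.Agent.Helper6.Kak.Scale
import Pool.Agent.Helper75.KakHB

/-!
# The costs `u2`, `u4` and the signs `D0`, `Dz0` of the hybrid step
-/

set_option autoImplicit false

namespace Pool.Agent.Helper57.Kak

open Pool.Agent.Helper8.Kak Pool.Agent.Helper6.Kak Pool.Agent.Helper90.Kak Pool.Agent.Helper8.Hyb

open VH

section

variable {m M : ℕ} {G : Geo m M}

theorem pnt_near (l n : G.L) (t : Fin M) (i : Fin m) :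
    |pnt G.x G.v l t i - pnt G.x G.v n t i| ≤ |G.x l i - G.x n i| + |G.v l i - G.v n i| := by
  have e : pnt G.x G.v l t i - pnt G.x G.v n t i
      = (G.x l i - G.x n i) + ht t * (G.v l i - G.v n i) := by
    unfold pnt
    ring
  rw [e]
  refine (abs_add_le _ _).trans ?_
  have h1 : |ht t * (G.v l i - G.v n i)| ≤ |G.v l i - G.v n i| := by
    rw [abs_mul, abs_of_nonneg (ht_nonneg t)]
    calc _ ≤ 1 * |G.v l i - G.v n i| :=
        mul_le_mul_of_nonneg_right (ht_lt_one t).le (abs_nonneg _)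
      _ = _ := one_mul _
  linarith

variable (S : PSys G)

theorem u2_aux : HH (pzz S) (VZ S) {b, kz, Qz, Pz} - HH (pzz S) (VZ S) {b, kz, Qz} ≤
    m * Real.log (2 * 8 + 3) := by
  refine cost_le (VZ S) {b, kz, Qz} {b, kz, Qz, Pz} Pz (by decide +kernel) _ fun r hr => ?_
  refine CE_ccell (hpz S) r
    (fun z => pnt G.x G.v (S.l (S.σ (d1 z.1.1))) (S.T (db z.1.1))) (kZ (Sz S)) (by norm_num) ?_
  intro z z' h0 h0' h
  have hb : S.T (db z.1.1) = S.T (db z'.1.1) := hr z z' h b (by decide +kernel)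
  have hk : kZ (Sz S) z = kZ (Sz S) z' := hr z z' h kz (by decide +kernel)
  have hQ : QZ (Sz S) z = QZ (Sz S) z' := hr z z' h Qz (by decide +kernel)
  refine ⟨hk, fun i => ?_⟩
  obtain ⟨_, hT, hP⟩ := lkz S h0'
  have hP' : G.P ((Sz S).l z'.1) (S.T (db' z'.1.1)) = G.P ((Sz S).l z'.2) (S.T (db' z'.1.1)) := by
    have e1 : (Sz S).l z'.1 = S.l (S.σ (d1 z'.1.1)) := rfl
    have e2 : (Sz S).l z'.2 = S.l (S.σ (d1 z'.2.1)) := rfl
    rw [e1, e2, hP, hT]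
  have g := tb_near G (l := (Sz S).l z.1) (l' := (Sz S).l z.2) (n := (Sz S).l z'.1)
    (n' := (Sz S).l z'.2) hk hQ hP' i
  have e : |pnt G.x G.v (S.l (S.σ (d1 z.1.1))) (S.T (db z.1.1)) i
      - pnt G.x G.v (S.l (S.σ (d1 z'.1.1))) (S.T (db z'.1.1)) i| ≤
      |G.x ((Sz S).l z.1) i - G.x ((Sz S).l z'.1) i|
        + |G.v ((Sz S).l z.1) i - G.v ((Sz S).l z'.1) i| := by
    rw [hb]
    exact pnt_near _ _ _ i
  have ek : kZ (Sz S) z = sc G ((Sz S).l z.1) ((Sz S).l z.2) := rfl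
  rw [ek]
  linarith [g.1, g.2]

theorem kZ_le (z : Zz S.Ω) : kZ (Sz S) z ≤ JJ G.δ := sc_le G _ _

theorem u4_aux : HH (pzz S) (VZ S) {b, Pb, kz, Pz} - HH (pzz S) (VZ S) {b, Pb, kz} ≤
    m * Real.log (2 * 2 + 3) := by
  refine cost_le (VZ S) {b, Pb, kz} {b, Pb, kz, Pz} Pz (by decide +kernel) _ fun r hr => ?_
  refine CE_ccell (hpz S) r
    (fun z => pnt G.x G.v (S.l (S.σ (d1 z.1.1))) (S.T (db z.1.1))) (kZ (Sz S)) (by norm_num) ?_
  intro z z' h0 h0' h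
  have hP : VZ S Pb z z' := hr z z' h Pb (by decide +kernel)
  rw [VZ_some S (u := .Pb) rfl] at hP
  have hP2 : G.P (S.l (S.σ (d1 z.1.1))) (S.T (db z.1.1))
      = G.P (S.l (S.σ (d1 z'.1.1))) (S.T (db z'.1.1)) := (VV_Pb S _ _).1 hP
  have hk : kZ (Sz S) z = kZ (Sz S) z' := hr z z' h kz (by decide +kernel)
  refine ⟨hk, fun i => ?_⟩
  have h1 := cell_eq_near G.hδ hP2 i
  have h2 := le_half G.hδ G.hδ1 (kZ_le S z)
  exact h1.trans h2

/-- the scale of the first gluing -/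
theorem kZw_ge {z : ZW S.Ω} (h : 0 < pw S z) : S.k (d0 z.1) ≤ kZ (Sw S) z + 2 := by
  have h1 : 0 < pY S z.1 := (MPw S).pos (hpw S).1 h
  have h2 : 0 < pY S z.2 := (MPw' S).pos (hpw S).1 h
  have g1 : 0 < S.p (d0 z.1) := (MP_d0 S.l (pr S)).pos (hpY S).1 h1
  have g2 : 0 < S.p (d0 z.2) := (MP_d0 S.l (pr S)).pos (hpY S).1 h2
  have hK : S.K (d0 z.1) (d0 z.2) := by
    have h5 : (({K, w, tw} : Finset VH).inf (VY S)) z.1 z.2 := (lkw S h).1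
    have h3 := (inf_rel (VY S) _ _ _).1 h5 K (by decide +kernel)
    rw [VY_some S (u := .K) rfl] at h3
    exact h3
  exact le_sc G _ _ (S.kJ _ g1) (S.tub _ _ g1 g2 hK)

/-- the scale of the second gluing -/
theorem kZz_ge {ζ : Zz S.Ω} (h : 0 < pzz S ζ) : S.k (d0 ζ.1.1) ≤ kZ (Sz S) ζ + 2 := by
  have a1 : 0 < pw S ζ.1 := (MPz S).pos (hpz S).1 h
  have a2 : 0 < pw S ζ.2 := (MPz' S).pos (hpz S).1 h
  have h1 : 0 < pY S ζ.1.1 := (MPw S).pos (hpw S).1 a1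
  have h2 : 0 < pY S ζ.2.1 := (MPw S).pos (hpw S).1 a2
  have g1 : 0 < S.p (d1 ζ.1.1) := (MP_d1 S.l (pr S)).pos (hpY S).1 h1
  have g2 : 0 < S.p (d1 ζ.2.1) := (MP_d1 S.l (pr S)).pos (hpY S).1 h2
  have g0 : 0 < S.p (d0 ζ.1.1) := (MP_d0 S.l (pr S)).pos (hpY S).1 h1
  have s1 : 0 < S.p (S.σ (d1 ζ.1.1)) := S.mp.pos S.hp.1 g1
  have s2 : 0 < S.p (S.σ (d1 ζ.2.1)) := S.mp.pos S.hp.1 g2
  have hK : S.K (d0 ζ.1.1) (d0 ζ.2.1) := by
    have h5 : (({K, z, tz, kq, Q} : Finset VH).inf (VW S)) ζ.1 ζ.2 := (lkz S h).1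
    have h3 := (inf_rel (VW S) _ _ _).1 h5 K (by decide +kernel)
    rw [VW_some S (u := .K) rfl] at h3
    exact h3
  have hL := lk S h1 h2
  have hKs : S.K (S.σ (d1 ζ.1.1)) (S.σ (d1 ζ.2.1)) := hL.Kσ1.2 hK
  have e1 : S.k (S.σ (d1 ζ.1.1)) = S.k (d1 ζ.1.1) :=
    S.kK _ _ s1 g1 (S.K.iseqv.symm (S.Kσ _ g1))
  have hL1 := (lk S h1 h1)
  obtain ⟨_, _, ⟨a5, _⟩, _, _⟩ := links S.l (pr S) h1
  have e2 : S.k (d1 ζ.1.1) = S.k (d0 ζ.1.1) := by
    first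
    | exact S.kK _ _ g1 g0 a5
    | exact (S.kK _ _ g0 g1 a5).symm
  have e3 : S.k (d0 ζ.1.1) = S.k (S.σ (d1 ζ.1.1)) := by rw [e1, e2]
  rw [e3]
  exact le_sc G _ _ (S.kJ _ s1) (S.tub _ _ s1 s2 hKs)

theorem gap_diff {δ : ℝ} {j k : ℕ} (h : k ≤ j + 2) : gap δ j ≤ gap δ k + 2 * Real.log 2 := by
  unfold gap
  have h1 : (k : ℝ) ≤ j + 2 := by exact_mod_cast h
  have h2 := Real.log_pos (by norm_num : (1:ℝ) < 2)
  nlinarith

theorem D0_aux : - (2 * Real.log 2) ≤ DD S := by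
  unfold DD PSys.A AQ
  have e1 : Ex S.p (fun ω => gap G.δ (S.k ω)) = Ex (pw S) (fun z => gap G.δ (S.k (d0 z.1))) :=
    (((MPw S).comp (MP_d0 S.l (pr S))).sum_comp (fun ω => gap G.δ (S.k ω))).symm
  rw [e1]
  have h : Ex (pw S) (fun z => gap G.δ (kZ (Sw S) z)) ≤
      Ex (pw S) (fun z => gap G.δ (S.k (d0 z.1)) + 2 * Real.log 2) := by
    unfold Ex
    refine Finset.sum_le_sum fun z _ => ?_
    rcases ((hpw S).1 z).eq_or_lt with h0 | h0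
    · rw [← h0]; simp
    · exact mul_le_mul_of_nonneg_left (gap_diff (kZw_ge S h0)) h0.le
  have e2 : Ex (pw S) (fun z => gap G.δ (S.k (d0 z.1)) + 2 * Real.log 2)
      = Ex (pw S) (fun z => gap G.δ (S.k (d0 z.1))) + 2 * Real.log 2 := by
    unfold Ex
    simp only [mul_add, Finset.sum_add_distrib]
    rw [← Finset.sum_mul, (hpw S).2, one_mul]
  have h' : Ex (pZ (Sw S)) (fun z => gap G.δ (kZ (Sw S) z)) ≤
    Ex (pw S) (fun z => gap G.δ (S.k (d0 z.1))) + 2 * Real.log 2 := by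
    rw [← e2]; exact h
  have h'' : Ex (pZ (Sw S)) (fun z => gap G.δ (kZ (Sw S) z)) - 2 * Real.log 2 ≤
    Ex (pw S) (fun z => gap G.δ (S.k (d0 z.1))) := by linarith
  exact (by linarith [h''] : - (2 * Real.log 2) ≤ Ex (pw S) (fun z => gap G.δ (S.k (d0 z.1)))
    - Ex (pZ (Sw S)) (fun z => gap G.δ (kZ (Sw S) z)))

theorem Dz0_aux : - (2 * Real.log 2) ≤ Dz S := by
  unfold Dz PSys.A AQ
  have e1 : Ex S.p (fun ω => gap G.δ (S.k ω)) = Ex (pzz S) (fun z => gap G.δ (S.k (d0 z.1.1))) :=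
    (((MPz S).comp ((MPw S).comp (MP_d0 S.l (pr S)))).sum_comp
      (fun ω => gap G.δ (S.k ω))).symm
  rw [e1]
  have h : Ex (pzz S) (fun z => gap G.δ (kZ (Sz S) z)) ≤
      Ex (pzz S) (fun z => gap G.δ (S.k (d0 z.1.1)) + 2 * Real.log 2) := by
    unfold Ex
    refine Finset.sum_le_sum fun z _ => ?_
    rcases ((hpz S).1 z).eq_or_lt with h0 | h0
    · rw [← h0]; simp
    · exact mul_le_mul_of_nonneg_left (gap_diff (kZz_ge S h0)) h0.le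
  have e2 : Ex (pzz S) (fun z => gap G.δ (S.k (d0 z.1.1)) + 2 * Real.log 2)
      = Ex (pzz S) (fun z => gap G.δ (S.k (d0 z.1.1))) + 2 * Real.log 2 := by
    unfold Ex
    simp only [mul_add, Finset.sum_add_distrib]
    rw [← Finset.sum_mul, (hpz S).2, one_mul]
  have h' : Ex (pZ (Sz S)) (fun z => gap G.δ (kZ (Sz S) z)) ≤
    Ex (pzz S) (fun z => gap G.δ (S.k (d0 z.1.1))) + 2 * Real.log 2 := by
    rw [← e2]; exact h
  exact (by linarith [h'] : - (2 * Real.log 2) ≤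
    Ex (pzz S) (fun z => gap G.δ (S.k (d0 z.1.1)))
    - Ex (pZ (Sz S)) (fun z => gap G.δ (kZ (Sz S) z)))

theorem one_le_err : 1 ≤ S.κ + S.ι + ell M := by
  have h1 := Helper6.Kak.one_le_ell G
  have h2 : 0 ≤ S.κ := S.toSys.κ_nonneg
  have h3 := Pool.Agent.Helper75.KakHB.ι_nonneg S
  linarith

end

theorem log19 : Real.log (2 * 8 + 3) ≤ 3 := by
  rw [Real.log_le_iff_le_exp (by norm_num)]
  have h := Real.exp_one_gt_d9
  have e : Real.exp 3 = Real.exp 1 ^ 3 := by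
    rw [← Real.exp_nat_mul]
    norm_num
  rw [e]
  calc (2 * 8 + 3 : ℝ) ≤ 2.7 ^ 3 := by norm_num
    _ ≤ Real.exp 1 ^ 3 := pow_le_pow_left₀ (by norm_num) (by linarith) 3

/-- cost `u2` -/
theorem cost_u2 (m : ℕ) : ∃ N : ℝ, 0 ≤ N ∧ ∀ (M : ℕ) (G : Geo m M) (S : PSys G),
    HH (pzz S) (VZ S) {b, kz, Qz, Pz} - HH (pzz S) (VZ S) {b, kz, Qz} ≤
      N * (S.κ + S.ι + ell M) := by
  refine ⟨3 * m, by positivity, fun M G S => (u2_aux S).trans ?_⟩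
  have h1 := one_le_err S
  have h2 := log19
  have h3 : (0 : ℝ) ≤ m := Nat.cast_nonneg _
  calc (m : ℝ) * Real.log (2 * 8 + 3) ≤ m * 3 := mul_le_mul_of_nonneg_left h2 h3
    _ = 3 * m * 1 := by ring
    _ ≤ 3 * m * (S.κ + S.ι + ell M) := mul_le_mul_of_nonneg_left h1 (by positivity)

/-- cost `u4` -/
theorem cost_u4 (m : ℕ) : ∃ N : ℝ, 0 ≤ N ∧ ∀ (M : ℕ) (G : Geo m M) (S : PSys G),
    HH (pzz S) (VZ S) {b, Pb, kz, Pz} - HH (pzz S) (VZ S) {b, Pb, kz} ≤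
      N * (S.κ + S.ι + ell M) := by
  refine ⟨3 * m, by positivity, fun M G S => (u4_aux S).trans ?_⟩
  have h1 := one_le_err S
  have h2 : Real.log (2 * 2 + 3) ≤ 3 :=
    (Real.log_le_log (by norm_num) (by norm_num)).trans log19
  have h3 : (0 : ℝ) ≤ m := Nat.cast_nonneg _
  calc (m : ℝ) * Real.log (2 * 2 + 3) ≤ m * 3 := mul_le_mul_of_nonneg_left h2 h3
    _ = 3 * m * 1 := by ring
    _ ≤ 3 * m * (S.κ + S.ι + ell M) := mul_le_mul_of_nonneg_left h1 (by positivity)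

/-- `D0` -/
theorem sign_D0 (m : ℕ) : ∃ N : ℝ, 0 ≤ N ∧ ∀ (M : ℕ) (G : Geo m M) (S : PSys G),
    - (N * (S.κ + S.ι + ell M)) ≤ DD S := by
  refine ⟨2, by norm_num, fun M G S => ?_⟩
  have h1 := one_le_err S
  have h2 := D0_aux S
  have h3 : Real.log 2 ≤ 1 := by
    have := Real.log_two_lt_d9
    linarith
  linarith

/-- `Dz0` -/
theorem sign_Dz0 (m : ℕ) : ∃ N : ℝ, 0 ≤ N ∧ ∀ (M : ℕ) (G : Geo m M) (S : PSys G),
    - (N * (S.κ + S.ι + ell M)) ≤ Dz S := by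
  refine ⟨2, by norm_num, fun M G S => ?_⟩
  have h1 := one_le_err S
  have h2 := Dz0_aux S
  have h3 : Real.log 2 ≤ 1 := by
    have := Real.log_two_lt_d9
    linarith
  linarith

end Pool.Agent.Helper57.Kak
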