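import Pool.Agent.Helper75.KakHJ

/-!
# The second inequality of the hybrid step
-/

set_option autoImplicit false

namespace Pool.Agent.Helper57.Kak

open Pool.Agent.Helper8.Kak Pool.Agent.Helper6.Kak Pool.Agent.Helper75.KakHB

open VH

/-- the final algebra -/
theorem arith {N kk C β c a μ h A D Dz LM U L1 X R E Z1 X6 X2 EQ τ Om g6 : ℝ}
    (hN : 0 ≤ N) (hk : 0 ≤ kk) (hC : 0 ≤ C) (hβ : 1 ≤ β) (hβ2 : β ≤ 2) (_hc : 0 ≤ c)
    (hc2 : c ≤ (β - 1) / 2)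
    (IH : L1 + (β - 1) * X + c * (A - Dz) ≤ β * R + C * E)
    (hL1 : Z1 - U ≤ L1) (hX : X6 - U ≤ X) (hR : R ≤ X2 - U + N * kk)
    (hE : E ≤ N * kk)
    (hZ1 : a + 2 * μ + 2 * LM + A - EQ - N * kk ≤ Z1)
    (hX6 : Dz / 2 + g6 + D - N * kk ≤ X6)
    (hX2 : X2 ≤ h + LM + Om - τ + N * kk)
    (h6 : EQ ≤ 2 * τ + N * kk) (h4 : EQ ≤ 2 * LM - D + N * kk) (hDz : - kk ≤ Dz) :
    a + 2 * μ + A + β / 2 * D + (β - 1) * g6 + c * A ≤
      β * (h + Om) + (10 * N + 1) * (C + 1) * kk := by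
  have hNk : 0 ≤ N * kk := mul_nonneg hN hk
  have e1 : (β - 1) * (X6 - U) ≤ (β - 1) * X := mul_le_mul_of_nonneg_left hX (by linarith)
  have e2 : β * R ≤ β * (X2 - U + N * kk) := mul_le_mul_of_nonneg_left hR (by linarith)
  have e3 : C * E ≤ C * (N * kk) := mul_le_mul_of_nonneg_left hE hC
  have e4 : (β - 1) * (Dz / 2 + g6 + D - N * kk) ≤ (β - 1) * X6 :=
    mul_le_mul_of_nonneg_left hX6 (by linarith)
  have e5 : β * X2 ≤ β * (h + LM + Om - τ + N * kk) :=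
    mul_le_mul_of_nonneg_left hX2 (by linarith)
  have e6 : β / 2 * EQ ≤ β / 2 * (2 * τ + N * kk) := mul_le_mul_of_nonneg_left h6 (by linarith)
  have e7 : (1 - β / 2) * EQ ≤ (1 - β / 2) * (2 * LM - D + N * kk) :=
    mul_le_mul_of_nonneg_left h4 (by linarith)
  have e8 : ((β - 1) / 2 - c) * (- kk) ≤ ((β - 1) / 2 - c) * Dz :=
    mul_le_mul_of_nonneg_left hDz (by linarith)
  have e9 : ((β - 1) / 2 - c) * kk ≤ 1 * kk := mul_le_mul_of_nonneg_right (by linarith) hk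
  have e10 : β * (N * kk) ≤ 2 * (N * kk) := mul_le_mul_of_nonneg_right hβ2 hNk
  have e12 : 0 ≤ C * kk := mul_nonneg hC hk
  have e11 : 0 ≤ C * (N * kk) := mul_nonneg hC hNk
  nlinarith [e1, e2, e3, e4, e5, e6, e7, e8, e9, e10, e11, e12]

section

variable {Ω : Type} [Fintype Ω] {p : Ω → ℝ} {V : VH → Setoid Ω}
  {eK eL eB eT eP eB2 LM Lam kk A D Dz : ℝ}

/-- (Z4) -/
theorem z4 (h : Hy.Hyp p V eK eL eB eT eP eB2 LM Lam kk A D Dz) :
    HH p V {K, l2, z, tz, Q, kq, b, T1} - HH p V {K, l2, z, tz, Q, kq} ≤ 2 * LM - D + kk := by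
  have hb := h.toBase
  have a1 := Binc hb {K, l2, Q, kq} {K, l2, Q, kq, T1} {K, l2, z, tz, Q, kq}
    {K, l2, z, tz, Q, kq, T1} (by decide +kernel) (by decide +kernel)
  have a2 := Binc hb {K} {K, b} {K, l2, z, tz, Q, kq, T1}
    {K, l2, z, tz, Q, kq, b, T1} (by decide +kernel) (by decide +kernel)
  linarith [h.d7, hb.hTb, hb.hK, hb.eTM]

/-- the six variables and `b` -/
theorem six (hb : Hy.Base p V eK eL eB eT eP eB2 LM Lam) :
    2 * eB2 + eB - 2 * eL ≤ HH p V {K, l0, l1, l2, T0, T1, b} := by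
  have aS := Binc hb {K, l0} {K, l0, S} {K, l0, l1, l2, T0, T1, b, b', R}
    {K, l0, l1, l2, T0, T1, b, b', R, S} (by decide +kernel) (by decide +kernel)
  have aR := Binc hb {K, l1} {K, l1, R} {K, l0, l1, l2, T0, T1, b, b'}
    {K, l0, l1, l2, T0, T1, b, b', R} (by decide +kernel) (by decide +kernel)
  have ab' := Binc hb {K, l2} {K, l2, b'} {K, l0, l1, l2, T0, T1, b}
    {K, l0, l1, l2, T0, T1, b, b'} (by decide +kernel) (by decide +kernel)
  have mn1 := Bmn hb {K, l0, l1, l2, T0, T1, S, R, b, b'} {K, l0, l1, l2, T0, T1, b, b', R, S}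
    (by decide +kernel)
  linarith [hb.tot, hb.h0S, hb.hL0, hb.h1R, hb.hL1, hb.h2b', hb.hL2]

/-- (Z1) -/
theorem z1 {N : ℝ} (h : Hy.Hyp p V eK eL eB eT eP eB2 LM Lam kk A D Dz)
    (J4 : LM - N * kk ≤ HH p V {K, l0, l1, l2, T0, T1, b, b', S, tz}
      - HH p V {K, l0, l1, l2, T0, T1, b, b', S}) :
    (eL - eK) + 2 * ((eL - eK) - (eP - eT)) + 2 * LM + A
      - (HH p V {K, l2, z, tz, Q, kq, b, T1} - HH p V {K, l2, z, tz, Q, kq}) - (N + 12) * kk ≤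
      HH p V {K, z, tz, kq, Q, l2} - HH p V {K, tz, kq} := by
  have hb := h.toBase
  have s1 := six hb
  have s2 := Binc hb {K, l0, l1, l2, T0, T1, b} {K, l0, l1, l2, T0, T1, b, tz}
    {K, l0, l1, l2, T0, T1, b, b', S} {K, l0, l1, l2, T0, T1, b, b', S, tz}
    (by decide +kernel) (by decide +kernel)
  have s3 := Bmn hb {K, l0, l1, l2, T0, T1, b, tz} {K, l0, l1, l2, T0, T1, b, tz, kq, z, Q}
    (by decide +kernel)
  have s4 := Binc hb {K, l0, l1} {K, l0, l1, T0} {K, l0, l1, l2, T1, b, tz, kq, z, Q}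
    {K, l0, l1, l2, T0, T1, b, tz, kq, z, Q} (by decide +kernel) (by decide +kernel)
  have s5 := Binc hb {K, l1, T1, P1} {K, l1, T1, P1, l0} {K, l1, l2, T1, b, tz, kq, z, Q}
    {K, l0, l1, l2, T1, b, tz, kq, z, Q} (by decide +kernel) (by decide +kernel)
  have s6 := Binc hb {z, Pb, b, tz} {z, Pb, b, tz, l1} {K, l2, z, tz, Q, kq, b, T1}
    {K, l1, l2, T1, b, tz, kq, z, Q} (by decide +kernel) (by decide +kernel)
  have s7 := Bmn hb {K, l2, z, tz, Q, kq} {K, z, tz, kq, Q, l2} (by decide +kernel)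
  have s8 := Binc hb {K} {K, kq} {K, tz} {K, tz, kq} (by decide +kernel) (by decide +kernel)
  linarith [h.c3, h.d2, h.d1, h.q1, h.cz, h.hκ, h.hι, hb.eTM, hb.hK, h.kk0]

/-- (Z2) -/
theorem z2 (h : Hy.Hyp p V eK eL eB eT eP eB2 LM Lam kk A D Dz) :
    HH p V {K, z, tz, kq, Q, b', Pb'} - HH p V {K, b', tz, kq} ≤
      (eP - eT) + LM + (HH p V {K, tw, w, kq, Q} - HH p V {K, tw, kq})
        - (HH p V {K, l2, z, tz, Q, kq, b', tw} - HH p V {K, l2, z, tz, Q, kq, b'}) + 2 * kk := by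
  have hb := h.toBase
  have t1 := Binc hb {K, z, tz, kq, Q, b', Pb'} {K, z, tz, kq, Q, b', Pb', tw}
    {K, l2, z, tz, Q, kq, b'} {K, l2, z, tz, Q, kq, b', tw}
    (by decide +kernel) (by decide +kernel)
  have t2 := Binc hb {Pb', w, b', tw, tz} {Pb', w, b', tw, tz, z}
    {K, tz, kq, Q, b', Pb', tw, w} {K, z, tz, kq, Q, b', Pb', tw, w}
    (by decide +kernel) (by decide +kernel)
  have t2' := Bmn hb {K, z, tz, kq, Q, b', Pb', tw} {K, z, tz, kq, Q, b', Pb', tw, w}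
    (by decide +kernel)
  have t3 := Binc hb {K, b'} {K, b', Pb'} {K, b', tz, kq} {K, b', tz, kq, Pb'}
    (by decide +kernel) (by decide +kernel)
  have t4 := Binc hb {K} {K, tw} {K, b', tz, kq, Pb'} {K, b', tz, kq, Pb', tw}
    (by decide +kernel) (by decide +kernel)
  have t5 := Binc hb {K, tw, kq} {K, tw, w, kq, Q} {K, b', tz, kq, Pb', tw}
    {K, tz, kq, Q, b', Pb', tw, w} (by decide +kernel) (by decide +kernel)
  linarith [h.d5, h.c2, hb.hPb', hb.hTb', hb.hK]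

/-- (Z6) -/
theorem z6 {N : ℝ} (h : Hy.Hyp p V eK eL eB eT eP eB2 LM Lam kk A D Dz)
    (J4 : LM - N * kk ≤ HH p V {K, l0, l1, l2, T0, T1, b, b', S, tz}
      - HH p V {K, l0, l1, l2, T0, T1, b, b', S}) :
    Dz / 2 + ((eL - eK) - 2 * (eP - eT) + Lam) + D - (N + 20) * kk ≤
      HH p V {K, z, tz, kq, Q, kz, Qz} - HH p V {K, tz, kq, kz} := by
  have hb := h.toBase
  have v1 := Binc hb {K, tz, kq, kz} {K, z, tz, kq, Q, kz, Qz} {K, tz, kq, kz, b}
    {K, z, tz, kq, Q, kz, Qz, b} (by decide +kernel) (by decide +kernel)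
  have v2 := Binc hb {b, kz, Qz} {b, kz, Qz, Pz} {K, z, tz, kq, Q, kz, Qz, b}
    {K, z, tz, kq, Q, kz, Qz, b, Pz} (by decide +kernel) (by decide +kernel)
  have v2' := Bmn hb {K, z, tz, kq, Q, kz, b, Pz} {K, z, tz, kq, Q, kz, Qz, b, Pz}
    (by decide +kernel)
  have v3 := h.u3
  have v4 := Binc hb {K, tz, kq, kz, b, Pz} {K, z, tz, kq, Q, kz, b, Pz}
    {K, tz, kq, kz, b, Pz, Pb} {K, z, tz, kq, Q, kz, b, Pz, Pb}
    (by decide +kernel) (by decide +kernel)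
  have v5 := Binc hb {b, Pb, kz} {b, Pb, kz, Pz} {K, tz, kq, kz, b, Pb}
    {K, tz, kq, kz, b, Pz, Pb} (by decide +kernel) (by decide +kernel)
  have v6 := Bmn hb {K, z, tz, kq, Q, kz, b, Pb} {K, z, tz, kq, Q, kz, b, Pz, Pb}
    (by decide +kernel)
  have v7 := Binc hb {z, Pb, b, tz} {z, Pb, b, tz, l1} {K, z, tz, kq, Q, kz, b, Pb}
    {K, z, tz, kq, Q, kz, b, Pb, l1} (by decide +kernel) (by decide +kernel)
  have v8 := Binc hb {K, l1, Q, kq} {K, l1, Q, kq, T0} {K, z, tz, kq, Q, kz, b, Pb, l1}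
    {K, z, tz, kq, Q, kz, b, Pb, l1, T0} (by decide +kernel) (by decide +kernel)
  have v9 := Bmn hb {K, b, Pb, l1, T0, tz} {K, z, tz, kq, Q, kz, b, Pb, l1, T0}
    (by decide +kernel)
  have w1 := Binc hb {K, b, Pb, l1, T0} {K, b, Pb, l1, T0, tz}
    {K, l0, l1, l2, T0, T1, b, b', S} {K, l0, l1, l2, T0, T1, b, b', S, tz}
    (by decide +kernel) (by decide +kernel)
  have w2 := Binc hb {K} {K, tz} {K, b, Pb} {K, b, Pb, tz} (by decide +kernel) (by decide +kernel)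
  have w3 := Binc hb {K} {K, kq} {K, b, Pb, tz} {K, b, Pb, tz, kq}
    (by decide +kernel) (by decide +kernel)
  have w4 := Binc hb {K} {K, kz} {K, b, Pb, tz, kq} {K, tz, kq, kz, b, Pb}
    (by decide +kernel) (by decide +kernel)
  -- `H(l1, T0 | Pb, b, K)`
  have s1 := six hb
  have x1 := Binc hb {K, T0, b, P0, Pb} {K, b, Pb, l1, T0} {K, l0, l2, T0, T1, b}
    {K, l0, l1, l2, T0, T1, b} (by decide +kernel) (by decide +kernel)
  have x2 := Binc hb {K, l2} {K, l2, b} {K, l0, l2, T1} {K, l0, l2, T1, b}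
    (by decide +kernel) (by decide +kernel)
  have x3 := Binc hb {K, l0} {K, l0, T0} {K, l0, l2, T1, b} {K, l0, l2, T0, T1, b}
    (by decide +kernel) (by decide +kernel)
  have x4 := Binc hb {K, l0, T0} {K, l0, l1, T0} {K, l0, l2, T0, T1, b}
    {K, l0, l1, l2, T0, T1, b} (by decide +kernel) (by decide +kernel)
  have x5 := Binc hb {K, b} {K, T0, b} {K, l0, l2, T1, b} {K, l0, l2, T0, T1, b}
    (by decide +kernel) (by decide +kernel)
  have x6 := Bmn hb {K, b, Pb} {K, b, Pb} (by decide +kernel)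
  linarith [h.u2, h.u4, h.d1, h.d8, h.cz, h.q1, h.u1, h.hκ, h.hι, hb.lam2, hb.hPb, hb.hTb, hb.hK,
    hb.hL0, hb.hL2, hb.h00, hb.h2b, hb.h010, hb.h021, hb.eTM, h.kk0]

end

/-- (2*) -/
theorem fact2 : Hy.Fact2 := by
  obtain ⟨N1, hN1, H1⟩ := factJ
  obtain ⟨N2, hN2, H2⟩ := factJQ
  refine ⟨10 * (N1 + N2 + 20) + 1, by linarith, ?_⟩
  intro Ω _ p V eK eL eB eT eP eB2 LM Lam kk A D Dz β c C h hI hβ hβ2 hc hc2 hC
  have hb := h.toBase
  have hk := h.kk0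
  obtain ⟨_, _, _, J4, _, _, _⟩ := H1 p V eK eL eB eT eP eB2 LM Lam kk h.toPar
  obtain ⟨JQ, _, _⟩ := H2 p V eK eL eB eT eP eB2 LM Lam kk h.toParQ
  have hN1k : 0 ≤ N1 * kk := mul_nonneg hN1 hk
  have hN2k : 0 ≤ N2 * kk := mul_nonneg hN2 hk
  -- the terms of the inductive hypothesis
  have a1 := Binc hb {K, tz, kq} {K, z, tz, kq, Q} {K, tz, kq, kz} {K, z, tz, kq, Q, kz}
    (by decide +kernel) (by decide +kernel)
  have a2 := Binc hb {K, z, tz, kq, Q} {K, z, tz, kq, Q, b'}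
    {K, l0, l1, l2, T0, T1, b, tz, kq, Q} {K, l0, l1, l2, T0, T1, b, tz, kq, Q, b'}
    (by decide +kernel) (by decide +kernel)
  have a3 := Binc hb {K} {K, b'} {K, tz, kq} {K, b', tz, kq}
    (by decide +kernel) (by decide +kernel)
  have a4 := Binc hb {K, z, tz, kq, Q, l2} {K, z, tz, kq, Q, l2, b'}
    {K, l0, l1, l2, T0, T1, b, tz, kq, Q} {K, l0, l1, l2, T0, T1, b, tz, kq, Q, b'}
    (by decide +kernel) (by decide +kernel)
  have k1 := z1 h J4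
  have k6 := z6 h J4
  have k2 := z2 h
  have k4 := z4 h
  have k3 := h.d6
  have hbT := hb.hTb'
  have hbK := hb.hK
  have hbM := hb.eTM
  refine arith (N := N1 + N2 + 20) (LM := LM) (U := HH p V {K, z, tz, kq, Q} - HH p V {K, tz, kq})
    (by linarith) hk hC hβ hβ2 hc hc2 hI (Z1 := HH p V {K, z, tz, kq, Q, l2} - HH p V {K, tz, kq})
    (X6 := HH p V {K, z, tz, kq, Q, kz, Qz} - HH p V {K, tz, kq, kz})
    (X2 := HH p V {K, z, tz, kq, Q, b', Pb'} - HH p V {K, b', tz, kq})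
    (EQ := HH p V {K, l2, z, tz, Q, kq, b, T1} - HH p V {K, l2, z, tz, Q, kq})
    (τ := HH p V {K, l2, z, tz, Q, kq, b', tw} - HH p V {K, l2, z, tz, Q, kq, b'})
    ?_ ?_ ?_ ?_ ?_ ?_ ?_ ?_ ?_ h.Dz0
  · linarith
  · linarith
  · linarith
  · linarith
  · linarith
  · linarith
  · linarith
  · linarith
  · linarith

end Pool.Agent.Helper57.Kak
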